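import Mathlib
import Pool.Agent.Q213.IndSquare

/-!
# A non-meager filter whose coideal is not homeomorphic to its square

Subsets of `ℕ` are identified with their characteristic functions `ℕ → Bool`.  The filter is the
intersection of two ultrafilters.
-/

namespace Pool.Agent.Results.MP_2ea626_lc.CoidealSquare

open Filter Topology

/-- The characteristic functions of the members of the filter, as a subspace of `2 ^ ω`. -/
def members (𝓕 : Filter ℕ) : Set (ℕ → Bool) := {x | {n | x n = true} ∈ 𝓕}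

/-- The coideal `𝓕⁺`: the characteristic functions of the sets which meet every member of `𝓕`. -/
def coideal (𝓕 : Filter ℕ) : Set (ℕ → Bool) := {x | ∀ A ∈ 𝓕, ∃ n ∈ A, x n = true}

/-- **Theorem.** There are two free ultrafilters on `ℕ` such that their intersection, the filter
`𝓕 = U ⊔ V`, is not meager and the square of its coideal is not homeomorphic to a closed subspace
of the coideal; in particular `𝓕⁺` is not homeomorphic to `𝓕⁺ × 𝓕⁺`. -/
theorem result : ∃ (U V : Ultrafilter ℕ) (𝓕 : Filter ℕ), 𝓕 = ↑U ⊔ ↑V ∧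
    𝓕.NeBot ∧ 𝓕 ≤ cofinite ∧ ¬ IsMeagre (members 𝓕) ∧
    (¬ ∃ e : coideal 𝓕 × coideal 𝓕 → coideal 𝓕, IsClosedEmbedding e) ∧
    IsEmpty (coideal 𝓕 ≃ₜ coideal 𝓕 × coideal 𝓕) := by
  obtain ⟨U, V, hU, hV, hUV⟩ := Pool.Agent.Q213.IndUlt.exists_no_closed_embedding_square
  let d : ℕ → ℕ := fun n => 2 * n
  let d' : ℕ → ℕ := fun n => 2 * n + 1
  have hd : Function.Injective d := fun m n h => by simp only [d] at h; omega
  have hd' : Function.Injective d' := fun m n h => by simp only [d'] at h; omega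
  let 𝓕 : Filter ℕ := ↑(U.map d) ⊔ ↑(V.map d')
  have hmem : members 𝓕 = Pool.Agent.Q213.IndUlt.MM U V := rfl
  have hpos : coideal 𝓕 = Pool.Agent.Q213.IndUlt.PP U V :=
    Pool.Agent.Q213.IndUlt.positive_eq U V
  have hno : ¬ ∃ e : coideal 𝓕 × coideal 𝓕 → coideal 𝓕, IsClosedEmbedding e := by
    rw [hpos]
    exact Pool.Agent.Q213.IndUlt.no_closed_embedding_square hUV
  refine ⟨U.map d, V.map d', 𝓕, rfl, ?_, ?_, ?_, hno,
    ⟨fun h => hno ⟨h.symm, h.symm.isClosedEmbedding⟩⟩⟩
  · exact (Ultrafilter.neBot _).mono le_sup_left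
  · refine sup_le ?_ ?_
    · exact (map_mono hU).trans hd.tendsto_cofinite
    · exact (map_mono hV).trans hd'.tendsto_cofinite
  · rw [hmem]
    exact Pool.Agent.Q213.IndUlt.MM_not_isMeagre U V

end Pool.Agent.Results.MP_2ea626_lc.CoidealSquare
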